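import Mathlib
import Pool.Agent.W_MP_541d58_an.Main

set_option autoImplicit false

namespace Pool.Agent.Results.MP_541d58_an.HilbertTilingTrivial

/-- In a real Hilbert space (of any dimension and any density character) the only disjoint tiling
by convex bodies, bounded or not, is the trivial one with the single tile `E`. -/
theorem result {E : Type*} [NormedAddCommGroup E] [InnerProductSpace ℝ E] [CompleteSpace E]
    (T : Set (Set E))
    (hT : ∀ C ∈ T, IsClosed C ∧ Convex ℝ C ∧ (interior C).Nonempty)
    (hdisj : T.PairwiseDisjoint id) (hcov : ⋃₀ T = Set.univ) :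
    T = {Set.univ} := by
  have hT' : Pool.Agent.W_MP_541d58_an.IsDisjTiling T := by
    refine ⟨fun C hC => (hT C hC).1, fun C hC => (hT C hC).2.1, fun C hC => (hT C hC).2.2,
      ?_, ?_⟩
    · intro C hC D hD x hxC hxD
      by_contra hne
      exact Set.disjoint_left.1 (hdisj hC hD hne) hxC hxD
    · intro x
      have : x ∈ ⋃₀ T := by rw [hcov]; exact Set.mem_univ x
      exact this
  have hu := Pool.Agent.W_MP_541d58_an.univ_mem hT'
  refine Set.Subset.antisymm (fun C hC => ?_) (by simpa using hu)
  obtain ⟨x, hx⟩ := (hT C hC).2.2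
  exact hT'.disj C hC _ hu x (interior_subset hx) (Set.mem_univ x)

end Pool.Agent.Results.MP_541d58_an.HilbertTilingTrivial
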